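import Mathlib
import Pool.Agent.Helper31.CUT.Cut

/-!
The order in which two paths cross a level of a labelled graph with one negative edge.
-/

set_option autoImplicit false

namespace Pool.Agent.Helper31.T3

open Pool.Agent.Helper42.Th Pool.Agent.Helper31.CUT

variable {E : Type} {Γ : CMap E} {δ : E} {Ω₁ Ω₂ : Type*} [LinearOrder Ω₁]
  [LinearOrder Ω₂] {f : E → Ω₁} {g : E → Ω₂} {S : Set E}

/-- A set of vertices which are not lower than the others, and which the negative edge leaves. -/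
structure WLevel (Γ : CMap E) (δ : E) (f : E → Ω₁) (S : Set E) : Prop where
  rot : ∀ d, Γ.rot d ∈ S ↔ d ∈ S
  high : ∀ d ∈ S, ∀ e ∉ S, f e ≤ f d
  cut : Cut Γ S δ

lemma next_inj {a b c : E} (hS : ∀ d, Γ.rot d ∈ S ↔ d ∈ S) (ha : Cut Γ S a) (hb : Cut Γ S b)
    (h1 : Next Γ S a c) (h2 : Next Γ S b c) : a = b := by
  have key : ∀ {a b : E} {m n : ℕ}, Cut Γ S a → n ≤ m →
      (Γ.dual.rot ^ (n + 1)) a = (Γ.dual.rot ^ (m + 1)) b →
      (∀ i ≤ m, (Γ.dual.rot ^ i) b ∈ S) → a = b := by
    intro a b m n ha hnm h1 h2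
    obtain ⟨l, rfl⟩ := Nat.exists_eq_add_of_le hnm
    rw [show n + l + 1 = (n + 1) + l by ring, pow_add _ (n + 1) l, Equiv.Perm.mul_apply] at h1
    have h3 := (Γ.dual.rot ^ (n + 1)).injective h1
    rcases Nat.eq_zero_or_pos l with rfl | hl
    · simpa using h3
    · exfalso
      obtain ⟨o, rfl⟩ : ∃ o, l = o + 1 := ⟨l - 1, by omega⟩
      rw [pow_succ', Equiv.Perm.mul_apply] at h3
      apply ha.2
      rw [h3]
      change Γ.flip (Γ.flip (Γ.rot ((Γ.dual.rot ^ o) b))) ∈ S
      rw [Γ.flip_flip, hS]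
      exact h2 o (by omega)
  obtain ⟨-, n, e1, f1⟩ := h1
  obtain ⟨-, m, e2, f2⟩ := h2
  rcases le_total n m with h | h
  · exact key ha h (e1.symm.trans e2) f2
  · exact (key hb h (e2.symm.trans e1) f1).symm

/-- The labels of the faces do not decrease along the boundary of the level set. -/
lemma wstep_le (h : Harm Γ δ f g) (L : WLevel Γ δ f S) {a e : E} (hn : Next Γ S a e)
    (he : e ≠ δ) : g a ≤ g e := by
  have h1 : e ≠ Γ.flip δ := by
    rintro rfl
    exact L.cut.2 hn.1.1
  rw [← hn.face g h.g_rot]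
  exact h.pos e he h1 (L.high _ hn.1.1 _ hn.1.2)

lemma wwalk_le (h : Harm Γ δ f g) (L : WLevel Γ δ f S) {d e : E} (hw : Walk Γ δ S d e) :
    g d ≤ g e := by
  induction hw with
  | refl => exact le_rfl
  | step a e _ hn he ih => exact ih.trans (wstep_le h L hn he)

/-- A dart which is strictly down. -/
lemma down_lt (h : Harm Γ δ f g) (L : WLevel Γ δ f S) {e : E} (hc : Cut Γ S e) (he : e ≠ δ)
    (hd : f (Γ.flip e) < f e) : g (Γ.flip e) < g e := by
  have h1 : e ≠ Γ.flip δ := by
    rintro rfl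
    exact L.cut.2 hc.1
  exact lt_of_le_of_ne (h.pos e he h1 hd.le) fun h2 => hd.ne (h.str e he h1 h2)

variable [Finite E]

/-- A closed set of cut darts. -/
lemma closed_pred (hS : ∀ d, Γ.rot d ∈ S ↔ d ∈ S) (T : Set E) (hT : ∀ d ∈ T, Cut Γ S d)
    (hcl : ∀ a ∈ T, ∀ c, Next Γ S a c → c ∈ T) {e : E} (he : e ∈ T) :
    ∃ a ∈ T, Next Γ S a e := by
  choose φ hφ using fun a : T => exists_next hS (hT a.1 a.2)
  let ψ : T → T := fun a => ⟨φ a, hcl a.1 a.2 _ (hφ a)⟩
  have hinj : Function.Injective ψ := by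
    intro a b hab
    have h1 : φ a = φ b := congrArg Subtype.val hab
    apply Subtype.ext
    exact next_inj hS (hT a.1 a.2) (hT b.1 b.2) (hφ a) (h1 ▸ hφ b)
  obtain ⟨a, ha⟩ := Finite.surjective_of_injective hinj ⟨e, he⟩
  refine ⟨a.1, a.2, ?_⟩
  have h1 : φ a = e := congrArg Subtype.val ha
  rw [← h1]
  exact hφ a

/-- The walk from a strictly descending dart arrives at `δ`. -/
lemma wlast (h : Harm Γ δ f g) (L : WLevel Γ δ f S) {e : E} (he : Cut Γ S e)
    (heδ : e ≠ δ) (hd : f (Γ.flip e) < f e) : ∃ a, Walk Γ δ S e a ∧ Next Γ S a δ := by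
  by_contra hcon
  push Not at hcon
  obtain ⟨a, ha, hn⟩ := closed_pred L.rot {a | Walk Γ δ S e a} (fun d hd => Walk.cut hd he)
    (fun a ha c hc => Walk.step a c ha hc fun h1 => hcon a ha (h1 ▸ hc)) Walk.refl
  have h1 := wwalk_le h L ha
  rw [← hn.face g h.g_rot] at h1
  exact absurd (down_lt h L he heδ hd) (not_lt.mpr h1)

/-- A strictly descending dart is on the walk from `δ`. -/
lemma wfirst (h : Harm Γ δ f g) (L : WLevel Γ δ f S) {e : E} (he : Cut Γ S e)
    (heδ : e ≠ δ) (hd : f (Γ.flip e) < f e) : ∃ a, Walk Γ δ S δ a ∧ Next Γ S a e := by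
  obtain ⟨a, ha, hn⟩ := closed_pred L.rot {a | Walk Γ δ S e a ∨ Walk Γ δ S δ a}
    (fun d hd => hd.elim (fun h => Walk.cut h he) fun h => Walk.cut h L.cut) (by
      intro a ha c hc
      by_cases h1 : c = δ
      · subst h1
        exact Or.inr Walk.refl
      · exact ha.imp (fun h => Walk.step a c h hc h1) fun h => Walk.step a c h hc h1)
    (Or.inl Walk.refl)
  rcases ha with ha | ha
  · exfalso
    have h1 := wwalk_le h L ha
    rw [← hn.face g h.g_rot] at h1
    exact absurd (down_lt h L he heδ hd) (not_lt.mpr h1)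
  · exact ⟨a, ha, hn⟩

/-- The first path crosses the level once, at `e`; the second one crosses it at `e'`. -/
theorem cut_fst (h : Harm Γ δ f g) (L : WLevel Γ δ f S) (p q : E → Prop)
    (hp : ∀ d, p (Γ.flip (Γ.rot d)) ↔ p d) (hp1 : p δ) {e e' : E}
    (hee : e' ≠ e) (he' : Cut Γ S e') (heδ' : e' ≠ δ) (hd : f (Γ.flip e') < f e')
    (hpe : ∀ d, Cut Γ S d → d ≠ δ → d ≠ e → (p d ↔ p (Γ.flip d)))
    (hqe : ¬ (q e' ↔ q (Γ.flip e'))) (hpq : ∀ d, p d → q d) : g e ≤ g (Γ.flip e') := by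
  have key : ∀ a, Walk Γ δ S δ a → p a ∨ g e ≤ g a := by
    intro a ha
    induction ha with
    | refl => exact Or.inl hp1
    | step a b hw hn hb ih =>
      rcases ih with ih | ih
      · by_cases h4 : b = e
        · right
          rw [h4]
        · left
          apply (hpe b hn.1 hb h4).mpr
          have := hn.face p (fun d => propext (hp d))
          rw [this]
          exact ih
      · exact Or.inr (ih.trans (wstep_le h L hn hb))
  obtain ⟨a, ha, hn⟩ := wfirst h L he' heδ' hd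
  rw [hn.face g h.g_rot]
  rcases key a ha with h1 | h1
  · exfalso
    have h2 := hn.face p (fun d => propext (hp d))
    have h3 : p (Γ.flip e') := by
      rw [h2]
      exact h1
    have h4 := (hpe e' he' heδ' hee).mpr h3
    exact hqe ⟨fun _ => hpq _ h3, fun _ => hpq _ h4⟩
  · exact h1

/-- The second path crosses the level once, at `e'`; the first one crosses it at `e`. -/
theorem cut_snd (h : Harm Γ δ f g) (L : WLevel Γ δ f S) (p q : E → Prop)
    (hq : ∀ d, q (Γ.flip (Γ.rot d)) ↔ q d) (hq2 : ¬ q (Γ.flip δ)) {e e' : E}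
    (hee : e' ≠ e) (he : Cut Γ S e) (heδ : e ≠ δ) (hd : f (Γ.flip e) < f e)
    (hqe : ∀ d, Cut Γ S d → d ≠ δ → d ≠ e' → (q d ↔ q (Γ.flip d)))
    (hpe : ¬ (p e ↔ p (Γ.flip e))) (hpq : ∀ d, p d → q d) : g e ≤ g (Γ.flip e') := by
  have h3 : q e := by
    have h1 : p e ∨ p (Γ.flip e) := by
      by_contra hn
      push Not at hn
      exact hpe ⟨fun h => absurd h hn.1, fun h => absurd h hn.2⟩
    rcases h1 with h1 | h1
    · exact hpq _ h1
    · exact (hqe e he heδ (Ne.symm hee)).mpr (hpq _ h1)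
  obtain ⟨a, ha, hn⟩ := wlast h L he heδ hd
  have h4 : ¬ q a := by
    have := hn.face q (fun d => propext (hq d))
    rw [← this]
    exact hq2
  have key : ∀ b, Walk Γ δ S e b → ¬ q b → g e ≤ g (Γ.flip e') := by
    intro b hb
    induction hb with
    | refl => exact fun h5 => absurd h3 h5
    | step b c hw hn' hc ih =>
      intro h5
      by_cases h6 : c = e'
      · rw [← h6, hn'.face g h.g_rot]
        exact wwalk_le h L hw
      · apply ih
        have h7 := hn'.face q (fun d => propext (hq d))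
        rw [← h7]
        exact fun h8 => h5 ((hqe c hn'.1 hc h6).mpr h8)
  exact key a ha h4

end Pool.Agent.Helper31.T3
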