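import Mathlib
import Pool.Agent.Helper31.T3.Rule

/-!
Paths side by side between the ends of the negative edge of a labelled graph, at one point.
-/

set_option autoImplicit false

namespace Pool.Agent.Helper31.T3

open Pool.Agent.Helper42.Th Pool.Agent.Helper31.CUT

variable {E : Type}

/-- The darts `d 0`, ..., `d (n - 1)` form a path from the start of `δ` to its end, all vertices
of which are different. -/
structure Arc (Γ : CMap E) (δ : E) (n : ℕ) (d : ℕ → E) : Prop where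
  pos : 0 < n
  ne : ∀ i < n, d i ≠ δ
  start : Γ.rot.SameCycle δ (d 0)
  step : ∀ i, i + 1 < n → Γ.rot.SameCycle (Γ.flip (d i)) (d (i + 1))
  last : Γ.rot.SameCycle (Γ.flip (d (n - 1))) (Γ.flip δ)
  inj : ∀ i j, i < j → j < n → ¬ Γ.rot.SameCycle (d i) (d j)
  end_ : ∀ i < n, ¬ Γ.rot.SameCycle (Γ.flip δ) (d i)

/-- The set `A` of faces is the part of the surface on one side of the cycle which is formed by
`δ` and the path. -/
structure Side (Γ : CMap E) (δ : E) (n : ℕ) (d : ℕ → E) (A : Set E) : Prop where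
  face : ∀ e, Γ.flip (Γ.rot e) ∈ A ↔ e ∈ A
  mem : δ ∈ A
  not_mem : Γ.flip δ ∉ A
  iff : ∀ e, e ≠ δ → e ≠ Γ.flip δ →
    ((e ∈ A ↔ Γ.flip e ∈ A) ↔ ∀ i < n, d i ≠ e ∧ d i ≠ Γ.flip e)

/-- The two paths have no common edge, and their ends are the only common vertices. -/
structure Disj (Γ : CMap E) (m : ℕ) (p : ℕ → E) (n : ℕ) (q : ℕ → E) : Prop where
  vert : ∀ i j, 0 < i → 0 < j → i < m → j < n → ¬ Γ.rot.SameCycle (p i) (q j)
  edge : p 0 ≠ q 0

section level

variable {Γ : CMap E} {δ : E} {m n : ℕ} {p q : ℕ → E} {Ω₁ Ω₂ : Type*} [LinearOrder Ω₁]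
  [LinearOrder Ω₂] {f : E → Ω₁} {g : E → Ω₂}

/-- Functions of the vertices. -/
lemma same_eq {T : Type*} {f : E → T} (hf : ∀ d, f (Γ.rot d) = f d) {d e : E}
    (h : Γ.rot.SameCycle d e) : f e = f d := by
  obtain ⟨i, rfl⟩ := h
  have key : ∀ i : ℕ, ∀ d, f ((Γ.rot ^ i) d) = f d := by
    intro i
    induction i with
    | zero => intro d; rfl
    | succ i ih =>
      intro d
      rw [pow_succ', Equiv.Perm.mul_apply, hf, ih]
  obtain ⟨i, rfl | rfl⟩ := i.eq_nat_or_neg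
  · rw [zpow_natCast]
    exact key i d
  · rw [← key i ((Γ.rot ^ (-(i : ℤ))) d), ← Equiv.Perm.mul_apply, ← zpow_natCast, ← zpow_add,
      add_neg_cancel, zpow_zero]
    rfl

/-- The vertex `i` of the path. -/
def vx (δ : E) (Γ : CMap E) (n : ℕ) (d : ℕ → E) (i : ℕ) : E := if i < n then d i else Γ.flip δ

lemma vx_lt {i : ℕ} (h : i < n) : vx δ Γ n p i = p i := if_pos h

lemma vx_end : vx δ Γ n p n = Γ.flip δ := if_neg (lt_irrefl _)

/-- The end of an edge is the next vertex. -/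
lemma Arc.next (P : Arc Γ δ n p) {i : ℕ} (hi : i < n) :
    Γ.rot.SameCycle (Γ.flip (p i)) (vx δ Γ n p (i + 1)) := by
  by_cases h : i + 1 < n
  · rw [vx_lt h]
    exact P.step i h
  · obtain rfl : i + 1 = n := by omega
    rw [vx_end]
    exact P.last

lemma Arc.f_next {T : Type*} {f : E → T} (hf : ∀ d, f (Γ.rot d) = f d) (P : Arc Γ δ n p) {i : ℕ}
    (hi : i < n) : f (Γ.flip (p i)) = f (vx δ Γ n p (i + 1)) := (same_eq hf (P.next hi)).symm

/-- Different vertices of a path. -/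
lemma Arc.vx_ne (P : Arc Γ δ n p) {i j : ℕ} (hij : i < j) (hj : j ≤ n) :
    ¬ Γ.rot.SameCycle (p i) (vx δ Γ n p j) := by
  by_cases h : j < n
  · rw [vx_lt h]
    exact P.inj i j hij h
  · obtain rfl : j = n := by omega
    rw [vx_end]
    exact fun h1 => P.end_ i hij h1.symm

lemma Arc.ne_flip (P : Arc Γ δ n p) {i : ℕ} (hi : i < n) : p i ≠ Γ.flip δ := by
  intro h
  apply P.end_ i hi
  rw [h]

/-- Vertices of different paths. -/
lemma Disj.vx_ne (D : Disj Γ m p n q) (P : Arc Γ δ m p) (Q : Arc Γ δ n q) {i j : ℕ} (hi : i < m)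
    (hj : 0 < j) (hj' : j ≤ n) : ¬ Γ.rot.SameCycle (p i) (vx δ Γ n q j) := by
  by_cases h : j < n
  · rw [vx_lt h]
    rcases Nat.eq_zero_or_pos i with rfl | h0
    · intro h1
      exact Q.inj 0 j hj h (Q.start.symm.trans (P.start.trans h1))
    · exact D.vert i j h0 hj hi h
  · obtain rfl : j = n := by omega
    rw [vx_end]
    exact fun h1 => P.end_ i hi h1.symm

lemma Disj.symm (D : Disj Γ m p n q) : Disj Γ n q m p :=
  ⟨fun i j hi hj hi' hj' h => D.vert j i hj hi hj' hi' h.symm, D.edge.symm⟩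

/-- Different edges. -/
lemma Disj.ne (D : Disj Γ m p n q) (P : Arc Γ δ m p) (Q : Arc Γ δ n q) {i j : ℕ} (hi : i < m)
    (hj : j < n) : q j ≠ p i := by
  intro h
  rcases Nat.eq_zero_or_pos j with rfl | h0
  · rcases Nat.eq_zero_or_pos i with rfl | h1
    · exact D.edge h.symm
    · refine P.inj 0 i h1 hi ?_
      rw [← h]
      exact P.start.symm.trans Q.start
  · rcases Nat.eq_zero_or_pos i with rfl | h1
    · refine Q.inj 0 j h0 hj ?_
      rw [h]
      exact Q.start.symm.trans P.start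
    · refine D.vert i j h1 h0 hi hj ?_
      rw [h]

/-- The level set of the vertices above `c`, with the first vertices of the two paths. -/
def lset (Γ : CMap E) (f : E → Ω₁) (c : Ω₁) (p q : ℕ → E) (i j : ℕ) : Set E :=
  {e | c < f e ∨ f e = c ∧ ((∃ l ≤ i, Γ.rot.SameCycle (p l) e) ∨ ∃ l ≤ j, Γ.rot.SameCycle (q l) e)}

/-- Non-increasing heights. -/
def MonoAt (Γ : CMap E) (f : E → Ω₁) (n : ℕ) (p : ℕ → E) : Prop :=
  ∀ i < n, f (Γ.flip (p i)) ≤ f (p i)

lemma mono_le (hf : ∀ d, f (Γ.rot d) = f d) (P : Arc Γ δ n p) (hm : MonoAt Γ f n p) {i j : ℕ}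
    (hij : i ≤ j) (hj : j ≤ n) : f (vx δ Γ n p j) ≤ f (vx δ Γ n p i) := by
  induction j with
  | zero =>
    obtain rfl : i = 0 := by omega
    exact le_rfl
  | succ j ih =>
    rcases Nat.lt_or_ge j i with h | h
    · obtain rfl : i = j + 1 := by omega
      exact le_rfl
    · refine le_trans ?_ (ih h (by omega))
      rw [← P.f_next hf (show j < n by omega), vx_lt (show j < n by omega)]
      exact hm j (by omega)

/-- The path crosses the boundary of `S` only at `p i`. -/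
lemma once {S : Set E} (hS : ∀ d, Γ.rot d ∈ S ↔ d ∈ S) (P : Arc Γ δ n p) {A : Set E}
    (hA : Side Γ δ n p A) (hδ : Cut Γ S δ) {i : ℕ}
    (hi : ∀ l ≤ n, vx δ Γ n p l ∈ S ↔ l ≤ i) :
    ∀ d, Cut Γ S d → d ≠ δ → d ≠ p i → (d ∈ A ↔ Γ.flip d ∈ A) := by
  intro d hd h1 h2
  have h3 : d ≠ Γ.flip δ := by
    rintro rfl
    exact hδ.2 hd.1
  rw [hA.iff d h1 h3]
  intro l hl
  have hS' : ∀ d, (Γ.rot d ∈ S) = (d ∈ S) := fun d => propext (hS d)
  have e1 : Γ.flip (p l) ∈ S ↔ l + 1 ≤ i := by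
    rw [← hi (l + 1) (by omega), ← eq_iff_iff]
    exact P.f_next (f := fun d => d ∈ S) hS' hl
  have e2 : p l ∈ S ↔ l ≤ i := by
    rw [← hi l hl.le, vx_lt hl]
  constructor
  · rintro rfl
    have h4 := e2.mp hd.1
    have h5 : ¬ l + 1 ≤ i := fun h => hd.2 (e1.mpr h)
    obtain rfl : l = i := by omega
    exact h2 rfl
  · intro h
    have h4 : p l ∉ S := by
      rw [h]
      exact hd.2
    have h5 : Γ.flip (p l) ∈ S := by
      rw [h, Γ.flip_flip]
      exact hd.1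
    have h6 := e1.mp h5
    exact h4 (e2.mpr (by omega))

lemma toggle {A : Set E} (P : Arc Γ δ n p) (hA : Side Γ δ n p A) {i : ℕ} (hi : i < n) :
    ¬ (p i ∈ A ↔ Γ.flip (p i) ∈ A) := by
  rw [hA.iff (p i) (P.ne i hi) (P.ne_flip hi)]
  push Not
  exact ⟨i, hi, fun h => absurd rfl h⟩

variable (h : Harm Γ δ f g) (hx : ∀ d, f (Γ.flip δ) ≤ f d ∧ f d ≤ f δ)
include h

/-- A path from inside of the level set to outside. -/
lemma mem_lset (P : Arc Γ δ m p) (Q : Arc Γ δ n q) (D : Disj Γ m p n q) {i j : ℕ}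
    (hi : i < m) (hj : j < n) {c : Ω₁} (h1 : f (Γ.flip (p i)) ≤ c) (h2 : c ≤ f (p i))
    (hm : MonoAt Γ f m p) (l : ℕ) (hl : l ≤ m) :
    vx δ Γ m p l ∈ lset Γ f c p q i j ↔ l ≤ i := by
  have hf := h.f_rot
  constructor
  · intro h3
    by_contra hn
    push Not at hn
    have h4 : f (vx δ Γ m p l) ≤ c :=
      (mono_le hf P hm (show i + 1 ≤ l by omega) hl).trans (by rwa [← P.f_next hf hi])
    rcases h3 with h3 | ⟨-, ⟨l', hl', h5⟩ | ⟨l', hl', h5⟩⟩
    · exact absurd h3 (not_lt.mpr h4)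
    · exact P.vx_ne (show l' < l by omega) hl h5
    · exact D.symm.vx_ne Q P (show l' < n by omega) (show 0 < l by omega) hl h5
  · intro h3
    have h4 : f (p i) ≤ f (vx δ Γ m p l) := by
      have := mono_le hf P hm h3 hi.le
      rwa [vx_lt hi] at this
    rcases (h2.trans h4).eq_or_lt with h5 | h5
    · refine Or.inr ⟨h5.symm, Or.inl ⟨l, h3, ?_⟩⟩
      rw [vx_lt (show l < m by omega)]
    · exact Or.inl h5

omit h in
lemma lset_comm (c : Ω₁) (i j : ℕ) : lset Γ f c p q i j = lset Γ f c q p j i := by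
  ext e
  simp only [lset, Set.mem_ofPred_eq, or_comm]

include hx in
lemma wlevel (P : Arc Γ δ m p) (Q : Arc Γ δ n q) {i j : ℕ}
    (hi : i < m) (hj : j < n) {c : Ω₁} (h1 : f (Γ.flip (p i)) ≤ c) (h2 : c ≤ f (p i)) :
    WLevel Γ δ f (lset Γ f c p q i j) := by
  have hf := h.f_rot
  have hr : ∀ d e, Γ.rot.SameCycle d (Γ.rot e) ↔ Γ.rot.SameCycle d e := fun d e =>
    Equiv.Perm.sameCycle_apply_right
  refine ⟨?_, ?_, ?_, ?_⟩
  · intro d
    simp only [lset, Set.mem_ofPred_eq, hf, hr]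
  · intro d hd e he
    have h3 : f e ≤ c := by
      by_contra hn
      exact he (Or.inl (not_le.mp hn))
    refine h3.trans ?_
    rcases hd with hd | hd
    · exact hd.le
    · exact hd.1.ge
  · rcases (h2.trans (hx (p i)).2).eq_or_lt with h5 | h5
    · exact Or.inr ⟨h5.symm, Or.inl ⟨0, Nat.zero_le _, P.start.symm⟩⟩
    · exact Or.inl h5
  · rintro (h3 | ⟨-, ⟨l, hl, h3⟩ | ⟨l, hl, h3⟩⟩)
    · exact absurd ((hx (Γ.flip (p i))).1.trans h1) (not_le.mpr h3)
    · exact P.end_ l (by omega) h3.symm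
    · exact Q.end_ l (by omega) h3.symm

variable [Finite E]

include hx in
/-- The rule for two edges which meet a common level, at one point: `p` is the first path. -/
theorem arc_cut (P : Arc Γ δ m p) (Q : Arc Γ δ n q) (D : Disj Γ m p n q) {A B : Set E}
    (hA : Side Γ δ m p A) (hB : Side Γ δ n q B) (hAB : A ⊆ B) {i j : ℕ} (hi : i < m) (hj : j < n)
    (hp : f (Γ.flip (p i)) < f (p i)) (hq : f (Γ.flip (q j)) < f (q j))
    (h1 : f (Γ.flip (p i)) ≤ f (q j)) (h2 : f (Γ.flip (q j)) ≤ f (p i))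
    (hm : MonoAt Γ f m p ∨ MonoAt Γ f n q) : g (p i) ≤ g (Γ.flip (q j)) := by
  have hf := h.f_rot
  set c := max (f (Γ.flip (p i))) (f (Γ.flip (q j))) with hc
  have c1 : f (Γ.flip (p i)) ≤ c := le_max_left _ _
  have c2 : f (Γ.flip (q j)) ≤ c := le_max_right _ _
  have c3 : c ≤ f (p i) := max_le hp.le h2
  have c4 : c ≤ f (q j) := max_le h1 hq.le
  set S := lset Γ f c p q i j with hS
  have L : WLevel Γ δ f S := wlevel h hx P Q hi hj c1 c3
  -- the two darts are cut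
  have key : ∀ {m n : ℕ} {p q : ℕ → E}, Arc Γ δ m p → Arc Γ δ n q → Disj Γ m p n q → ∀ {i j : ℕ},
      i < m → j < n → f (Γ.flip (p i)) < f (p i) → f (Γ.flip (p i)) ≤ c → c ≤ f (p i) →
      Cut Γ (lset Γ f c p q i j) (p i) := by
    intro m n p q P Q D i j hi hj hp c1 c3
    constructor
    · rcases c3.eq_or_lt with h5 | h5
      · exact Or.inr ⟨h5.symm, Or.inl ⟨i, le_rfl, Equiv.Perm.SameCycle.refl _ _⟩⟩
      · exact Or.inl h5
    · rintro (h3 | ⟨-, ⟨l, hl, h3⟩ | ⟨l, hl, h3⟩⟩)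
      · exact absurd h3 (not_lt.mpr c1)
      · exact P.vx_ne (show l < i + 1 by omega) hi (h3.trans (P.next hi))
      · exact D.symm.vx_ne Q P (show l < n by omega) (Nat.succ_pos i) hi (h3.trans (P.next hi))
  have k1 : Cut Γ S (p i) := key P Q D hi hj hp c1 c3
  have k2 : Cut Γ S (q j) := by
    rw [hS, lset_comm]
    exact key Q P D.symm hj hi hq c2 c4
  have hne : q j ≠ p i := D.ne P Q hi hj
  rcases hm with hm | hm
  · exact cut_fst h L (fun d => d ∈ A) (fun d => d ∈ B) hA.face hA.mem hne k2 (Q.ne j hj) hq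
      (once L.rot P hA L.cut fun l hl => mem_lset h P Q D hi hj c1 c3 hm l hl)
      (toggle Q hB hj) hAB
  · refine cut_snd h L (fun d => d ∈ A) (fun d => d ∈ B) hB.face hB.not_mem hne k1 (P.ne i hi) hp
      (once L.rot Q hB L.cut ?_) (toggle P hA hi) hAB
    intro l hl
    rw [hS, lset_comm]
    exact mem_lset h Q P D.symm hj hi c2 c4 hm l hl

include hx in
/-- The first edges. -/
theorem arc_top (P : Arc Γ δ m p) (Q : Arc Γ δ n q) (D : Disj Γ m p n q) {A B : Set E}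
    (hA : Side Γ δ m p A) (hB : Side Γ δ n q B) (hAB : A ⊆ B)
    (hq : f (Γ.flip (q 0)) < f (q 0)) : g (p 0) ≤ g (Γ.flip (q 0)) := by
  have hf := h.f_rot
  set S : Set E := {e | Γ.rot.SameCycle δ e} with hS
  have hr : ∀ d e, Γ.rot.SameCycle d (Γ.rot e) ↔ Γ.rot.SameCycle d e := fun d e =>
    Equiv.Perm.sameCycle_apply_right
  have hcut : Cut Γ S δ := ⟨Equiv.Perm.SameCycle.refl _ _, fun h1 =>
    P.end_ 0 P.pos (Equiv.Perm.SameCycle.symm h1 |>.trans P.start)⟩
  have L : WLevel Γ δ f S := by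
    refine ⟨fun d => hr _ _, fun d hd e _ => ?_, hcut⟩
    rw [same_eq hf hd]
    exact (hx e).2
  have key : ∀ {n : ℕ} {q : ℕ → E}, Arc Γ δ n q → ∀ l ≤ n, vx δ Γ n q l ∈ S ↔ l ≤ 0 := by
    intro n q Q l hl
    constructor
    · intro h1
      by_contra hn
      exact Q.vx_ne (show 0 < l by omega) hl (Q.start.symm.trans h1)
    · intro h1
      obtain rfl : l = 0 := by omega
      rw [vx_lt Q.pos]
      exact Q.start
  have k2 : Cut Γ S (q 0) := by
    refine ⟨Q.start, fun h1 => Q.vx_ne (show 0 < 1 by omega) Q.pos ?_⟩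
    exact Q.start.symm.trans (Equiv.Perm.SameCycle.trans h1 (Q.next Q.pos))
  exact cut_fst h L (fun d => d ∈ A) (fun d => d ∈ B) hA.face hA.mem
    (D.ne P Q P.pos Q.pos) k2 (Q.ne 0 Q.pos) hq (once L.rot P hA L.cut (key P))
    (toggle Q hB Q.pos) hAB

include hx in
/-- The last edges. -/
theorem arc_bot (P : Arc Γ δ m p) (Q : Arc Γ δ n q) (D : Disj Γ m p n q) {A B : Set E}
    (hA : Side Γ δ m p A) (hB : Side Γ δ n q B) (hAB : A ⊆ B)
    (hq : f (Γ.flip (q (n - 1))) < f (q (n - 1))) :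
    g (p (m - 1)) ≤ g (Γ.flip (q (n - 1))) := by
  have hf := h.f_rot
  set S : Set E := {e | ¬ Γ.rot.SameCycle (Γ.flip δ) e} with hS
  have hr : ∀ d e, Γ.rot.SameCycle d (Γ.rot e) ↔ Γ.rot.SameCycle d e := fun d e =>
    Equiv.Perm.sameCycle_apply_right
  have hmem : ∀ e, e ∈ S ↔ ¬ Γ.rot.SameCycle (Γ.flip δ) e := fun e => Iff.rfl
  have hcut : Cut Γ S δ := by
    refine ⟨fun h1 => P.end_ 0 P.pos (Equiv.Perm.SameCycle.trans h1 P.start), fun h1 => ?_⟩
    exact h1 (Equiv.Perm.SameCycle.refl _ _)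
  have L : WLevel Γ δ f S := by
    refine ⟨fun d => ?_, fun d _ e he => ?_, hcut⟩
    · rw [hmem, hmem, hr]
    · have h1 : Γ.rot.SameCycle (Γ.flip δ) e := not_not.mp he
      rw [same_eq hf h1]
      exact (hx d).1
  have key : ∀ {n : ℕ} {q : ℕ → E}, Arc Γ δ n q → ∀ l ≤ n, vx δ Γ n q l ∈ S ↔ l ≤ n - 1 := by
    intro n q Q l hl
    have := Q.pos
    constructor
    · intro h1
      by_contra hn
      obtain rfl : l = n := by omega
      rw [vx_end] at h1
      exact h1 (Equiv.Perm.SameCycle.refl _ _)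
    · intro h1
      rw [vx_lt (show l < n by omega)]
      exact Q.end_ l (by omega)
  have hn1 : n - 1 < n := by have := Q.pos; omega
  have hm1 : m - 1 < m := by have := P.pos; omega
  have k2 : Cut Γ S (q (n - 1)) := by
    refine ⟨Q.end_ _ hn1, fun h1 => h1 ?_⟩
    exact Q.last.symm
  exact cut_fst h L (fun d => d ∈ A) (fun d => d ∈ B) hA.face hA.mem
    (D.ne P Q hm1 hn1) k2 (Q.ne _ hn1) hq (once L.rot P hA L.cut (key P))
    (toggle Q hB hn1) hAB

end level

end Pool.Agent.Helper31.T3
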