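import Mathlib

/-!
Paths from the top to the bottom, with the labels of the faces on the two sides of their edges,
on an interval of a linear order without fixed points of `a`.
-/

set_option autoImplicit false

namespace Pool.Agent.Helper31.T3

variable {J : Type*} [LinearOrder J] {a b : J ≃o J} {k m n : ℕ} {u v w : ℕ → ℕ}

/-- A path with `n` edges from the top to the bottom.  `h i` is the height of the vertex `i`,
`F (i + 1)` is the positive part of the flow of the edge from the vertex `i` to the vertex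
`i + 1`, `w (i + 1)` is the weight of this edge, `l (i + 1)` and `r (i + 1)` are the labels of the
faces on its left and on its right side; the labels of the right and of the left face of the
negative edge are `1` and `b`. -/
structure FPth (a b : J ≃o J) (n : ℕ) (w : ℕ → ℕ) where
  h : ℕ → J ≃o J
  F : ℕ → J ≃o J
  l : ℕ → J ≃o J
  r : ℕ → J ≃o J
  pos : 0 < n
  wpos : ∀ i, 0 < w i
  top : ∀ z, h 0 z = a z
  bot : ∀ z, h n z = z
  lo : ∀ i z, z ≤ h i z
  hi : ∀ i z, h i z ≤ a z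
  one_le : ∀ i z, z ≤ l i z ∧ z ≤ r i z
  le_b : ∀ i z, l i z ≤ b z ∧ r i z ≤ b z
  /-- The flow is `(r i)⁻¹ * l i`. -/
  flow : ∀ i z, r i (F i z) = max (r i z) (l i z)
  up : ∀ i z, i < n → l (i + 1) z ≤ r (i + 1) z → h i z ≤ h (i + 1) z
  down : ∀ i z, i < n → r (i + 1) z < l (i + 1) z → h (i + 1) z ≤ h i z
  step : ∀ i z, i < n → h i z ≤ h (i + 1) ((F (i + 1) ^ w (i + 1)) z)
  fst : ∀ z, r 1 z < l 1 z
  lst : ∀ z, r n z < l n z

namespace FPth

variable (P : FPth a b m u) (Q : FPth a b n v) (R : FPth a b k w)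

/-- The heights do not increase along `P` at `t`. -/
def Mono (t : J) : Prop := ∀ i < m, P.h (i + 1) t ≤ P.h i t

/-- The edge `i` descends at `t`. -/
def Dn (i : ℕ) (t : J) : Prop := P.r i t < P.l i t

/-- The edges `j + 1` of `P` and `i + 1` of `Q` meet a common height at `t`. -/
def Ov (j i : ℕ) (t : J) : Prop := P.h (j + 1) t ≤ Q.h i t ∧ Q.h (i + 1) t ≤ P.h j t

/-- The pairs of edges for which the rule is stated. -/
def Good (j i : ℕ) (t : J) : Prop :=
  P.Mono t ∨ Q.Mono t ∨ (j = 0 ∧ i = 0) ∨ (j + 1 = m ∧ i + 1 = n)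

/-- The path `P` is on the left side of `Q`: the rule for two edges which meet a common height. -/
def Left : Prop :=
  ∀ j i t, j < m → i < n → P.Dn (j + 1) t → Q.Dn (i + 1) t → P.Good Q j i t → P.Ov Q j i t →
    Q.l (i + 1) t ≤ P.r (j + 1) t

variable {P Q R}

lemma ge (P : FPth a b m u) (i : ℕ) (z : J) : z ≤ P.F i z := by
  rw [← (P.r i).le_iff_le, P.flow]
  exact le_max_left _ _

lemma F_le (P : FPth a b m u) (i : ℕ) (z : J) : P.F i z ≤ b z := by
  refine (P.one_le i _).2.trans ?_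
  rw [P.flow]
  exact max_le (P.le_b i z).2 (P.le_b i z).1

lemma dn_iff {i : ℕ} {z : J} : P.Dn i z ↔ z < P.F i z := by
  rw [← (P.r i).lt_iff_lt, P.flow, lt_max_iff]
  simp only [lt_irrefl, false_or]
  rfl

lemma not_dn {i : ℕ} {z : J} (h : ¬ P.Dn i z) : P.F i z = z :=
  le_antisymm (not_lt.mp fun h1 => h (dn_iff.mpr h1)) (P.ge i z)

lemma flow_dn {i : ℕ} {z : J} (h : P.Dn i z) : P.r i (P.F i z) = P.l i z := by
  rw [P.flow]
  exact max_eq_right h.le

/-- An edge which does not descend at `F z` is not descending at `z` either. -/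
lemma dn_F {i : ℕ} {z : J} : P.Dn i (P.F i z) ↔ P.Dn i z := by
  rw [dn_iff, dn_iff, (P.F i).lt_iff_lt]

lemma r_F_le (P : FPth a b m u) (i : ℕ) (z : J) : P.r i (P.F i z) ≤ b z := by
  rw [P.flow]
  exact max_le (P.le_b i z).2 (P.le_b i z).1

/-- Two edges. -/
lemma cut2 (h : P.Left Q) (j i : ℕ) (s : J) (hj : j < m) (hi : i < n)
    (hg : P.Good Q j i (P.F (j + 1) s)) (ho : P.Ov Q j i (P.F (j + 1) s)) :
    Q.F (i + 1) (P.F (j + 1) s) ≤ b s := by
  by_cases h1 : P.Dn (j + 1) (P.F (j + 1) s)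
  · by_cases h2 : Q.Dn (i + 1) (P.F (j + 1) s)
    · refine (Q.one_le (i + 1) _).2.trans ?_
      rw [flow_dn h2]
      exact (h j i _ hj hi h1 h2 hg ho).trans (P.r_F_le _ _)
    · rw [not_dn h2]
      exact P.F_le _ _
  · rw [not_dn (fun h2 => h1 (dn_F.mpr h2))]
    exact Q.F_le _ _

/-- Three edges. -/
lemma cut3 (h1 : R.Left P) (h2 : P.Left Q) (h3 : R.Left Q) (c j i : ℕ) (s : J) (hc : c < k)
    (hj : j < m) (hi : i < n) (g1 : R.Good P c j (R.F (c + 1) s))
    (o1 : R.Ov P c j (R.F (c + 1) s)) (g2 : P.Good Q j i (P.F (j + 1) (R.F (c + 1) s)))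
    (o2 : P.Ov Q j i (P.F (j + 1) (R.F (c + 1) s))) (g3 : R.Good Q c i (R.F (c + 1) s)) :
    Q.F (i + 1) (P.F (j + 1) (R.F (c + 1) s)) ≤ b s := by
  by_cases d1 : R.Dn (c + 1) (R.F (c + 1) s)
  · by_cases d2 : P.Dn (j + 1) (R.F (c + 1) s)
    · by_cases d3 : Q.Dn (i + 1) (P.F (j + 1) (R.F (c + 1) s))
      · refine (Q.one_le (i + 1) _).2.trans ?_
        rw [flow_dn d3]
        refine (h2 j i _ hj hi (dn_F.mpr d2) d3 g2 o2).trans ?_
        rw [flow_dn d2]
        exact (h1 c j _ hc hj d1 d2 g1 o1).trans (R.r_F_le _ _)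
      · rw [not_dn d3]
        exact cut2 h1 c j s hc hj g1 o1
    · have e1 := not_dn d2
      rw [e1] at o2 ⊢
      refine cut2 h3 c i s hc hi g3 ⟨?_, ?_⟩
      · exact o1.1.trans ((P.up j _ hj (not_lt.mp d2)).trans o2.1)
      · exact o2.2.trans ((P.up j _ hj (not_lt.mp d2)).trans o1.2)
  · have e1 := not_dn (fun h2 => d1 (dn_F.mpr h2))
    rw [e1] at g2 o2 ⊢
    exact cut2 h2 j i s hj hi g2 o2

end FPth

end Pool.Agent.Helper31.T3
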