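import Mathlib

/-!
Intervals of a linear order without fixed points of an automorphism.
-/

set_option autoImplicit false

namespace Pool.Agent.Helper31.T3

variable {Ω : Type*} [LinearOrder Ω]

/-- The points between the translates of `z₀`. -/
def Reg (a : Ω ≃o Ω) (z₀ z : Ω) : Prop := ∃ n : ℕ, (a⁻¹ ^ n) z₀ ≤ z ∧ z ≤ (a ^ n) z₀

lemma reg_self (a : Ω ≃o Ω) (z₀ : Ω) : Reg a z₀ z₀ := ⟨0, le_rfl, le_rfl⟩

section reg

variable {a : Ω ≃o Ω} {z₀ : Ω} (h0 : z₀ < a z₀)
include h0

lemma base_mono : Monotone fun n : ℕ => (a ^ n) z₀ := by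
  refine monotone_nat_of_le_succ fun n => ?_
  rw [pow_succ, RelIso.mul_apply]
  exact (a ^ n).monotone h0.le

lemma base_anti : Antitone fun n : ℕ => (a⁻¹ ^ n) z₀ := by
  refine antitone_nat_of_succ_le fun n => ?_
  rw [pow_succ, RelIso.mul_apply]
  refine (a⁻¹ ^ n).monotone ?_
  rw [← a.le_iff_le, RelIso.apply_inv_self]
  exact h0.le

lemma reg_lt {z : Ω} (hz : Reg a z₀ z) : z < a z := by
  obtain ⟨n, h1, h2⟩ := hz
  by_contra hn
  push Not at hn
  have key : ∀ m : ℕ, (a ^ m) z ≤ z := by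
    intro m
    induction m with
    | zero => simp
    | succ m ih =>
      rw [pow_succ', RelIso.mul_apply]
      exact (a.monotone ih).trans hn
  have h3 : (a ^ (n + (n + 1))) ((a⁻¹ ^ n) z₀) = (a ^ (n + 1)) z₀ := by
    rw [← RelIso.mul_apply, inv_pow, add_comm, pow_add, mul_assoc, mul_inv_cancel, mul_one]
  have h4 := ((a ^ (n + (n + 1))).monotone h1).trans (key _)
  rw [h3] at h4
  have h5 : (a ^ n) z₀ < (a ^ (n + 1)) z₀ := by
    rw [pow_succ, RelIso.mul_apply]
    exact (a ^ n).strictMono h0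
  exact absurd (h4.trans h2) (not_le.mpr h5)

omit h0 in
lemma reg_mid {z w : Ω} (hz : Reg a z₀ z) (h1 : a⁻¹ z ≤ w) (h2 : w ≤ a z) : Reg a z₀ w := by
  obtain ⟨n, h3, h4⟩ := hz
  refine ⟨n + 1, ?_, ?_⟩
  · rw [pow_succ', RelIso.mul_apply]
    exact (a⁻¹.monotone h3).trans h1
  · rw [pow_succ', RelIso.mul_apply]
    exact h2.trans (a.monotone h4)

/-- The restriction of an automorphism. -/
def restr (φ : Ω ≃o Ω) (h : ∀ z, Reg a z₀ z → a⁻¹ z ≤ φ z ∧ φ z ≤ a z) :
    {z // Reg a z₀ z} ≃o {z // Reg a z₀ z} where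
  toFun z := ⟨φ z.1, reg_mid z.2 (h z.1 z.2).1 (h z.1 z.2).2⟩
  invFun z := ⟨φ.symm z.1, by
    have hz := z.2
    have r1 : Reg a z₀ (a z.1) := reg_mid hz (by
      rw [← a.le_iff_le, RelIso.apply_inv_self]
      exact (reg_lt h0 hz).le.trans (a.monotone (reg_lt h0 hz).le)) le_rfl
    have r2 : Reg a z₀ (a⁻¹ z.1) := reg_mid hz le_rfl (by
      rw [← a.le_iff_le, RelIso.apply_inv_self]
      exact (reg_lt h0 hz).le.trans (a.monotone (reg_lt h0 hz).le))
    refine reg_mid hz ?_ ?_
    · have := (h _ r2).2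
      rw [RelIso.apply_inv_self] at this
      exact (φ.le_symm_apply).mpr this
    · have := (h _ r1).1
      rw [RelIso.inv_apply_self] at this
      exact (φ.symm_apply_le).mpr this⟩
  left_inv z := Subtype.ext (φ.symm_apply_apply _)
  right_inv z := Subtype.ext (φ.apply_symm_apply _)
  map_rel_iff' {z w} := φ.le_iff_le

end reg

/-- The positive part of an automorphism. -/
def posIso (φ : Ω ≃o Ω) : Ω ≃o Ω where
  toFun z := max z (φ z)
  invFun z := min z (φ.symm z)
  left_inv z := by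
    change min (max z (φ z)) (φ.symm (max z (φ z))) = z
    rcases le_total z (φ z) with h | h
    · rw [max_eq_right h, φ.symm_apply_apply, min_eq_right h]
    · rw [max_eq_left h, min_eq_left]
      rwa [φ.le_symm_apply]
  right_inv z := by
    change max (min z (φ.symm z)) (φ (min z (φ.symm z))) = z
    rcases le_total z (φ.symm z) with h | h
    · rw [min_eq_left h, max_eq_left]
      rwa [φ.le_symm_apply] at h
    · rw [min_eq_right h, φ.apply_symm_apply, max_eq_right h]
  map_rel_iff' {z w} := by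
    change max z (φ z) ≤ max w (φ w) ↔ z ≤ w
    constructor
    · intro h
      by_contra hn
      push Not at hn
      exact absurd h (not_le.mpr (max_lt_max hn (φ.strictMono hn)))
    · intro h
      exact max_le_max h (φ.monotone h)

lemma posIso_apply (φ : Ω ≃o Ω) (z : Ω) : posIso φ z = max z (φ z) := rfl

end Pool.Agent.Helper31.T3
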