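import Mathlib
import Pool.Agent.Helper42.Th.Core
import Pool.Agent.Helper31.T3.Arc
import Pool.Agent.Helper31.T3.Restr
import Pool.Agent.Helper31.T3.Face

/-!
From labelled graphs with one negative edge to paths on an interval of a linear order.
-/

set_option autoImplicit false

namespace Pool.Agent.Helper31.T3

open Pool.Agent.Helper42.Th Pool.Agent.Helper31.CUT

section strict

variable {E : Type} [Finite E] {Γ : CMap E} {δ : E} {m n : ℕ} {p q : ℕ → E} {Ω₁ Ω₂ : Type*}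
  [LinearOrder Ω₁] [LinearOrder Ω₂] {f : E → Ω₁} {g : E → Ω₂}

/-- The vertices of a path are lower than the start of `δ`. -/
lemma below (h : Harm Γ δ f g) (hx : ∀ d, f (Γ.flip δ) ≤ f d ∧ f d ≤ f δ)
    (h0 : f (Γ.flip δ) < f δ) (P : Arc Γ δ n p) :
    ∀ o i, i + o = n → 0 < i → f (vx δ Γ n p i) < f δ := by
  have hf := h.f_rot
  intro o
  induction o with
  | zero =>
    intro i hi _
    obtain rfl : i = n := by omega
    rw [vx_end]
    exact h0
  | succ o ih =>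
    intro i hi hi0
    have hin : i < n := by omega
    have h1 := ih (i + 1) (by omega) (by omega)
    refine lt_of_le_of_ne (hx _).2 fun h2 => ?_
    rw [vx_lt hin] at h2
    have hsp := h.spread {e | Γ.rot.SameCycle (p i) e}
      (fun d => Equiv.Perm.sameCycle_apply_right) ?_ ?_ (p i) (Equiv.Perm.SameCycle.refl _ _)
    · rw [P.f_next hf hin, h2] at hsp
      exact h1.ne hsp
    · intro d hd
      constructor
      · rintro rfl
        exact P.inj 0 i hi0 hin (P.start.symm.trans (Equiv.Perm.SameCycle.symm hd))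
      · rintro rfl
        exact P.end_ i hin (Equiv.Perm.SameCycle.symm hd)
    · intro d hd
      rw [same_eq hf hd, h2]
      exact (hx _).2

/-- The vertices of a path are higher than the end of `δ`. -/
lemma above (h : Harm Γ δ f g) (hx : ∀ d, f (Γ.flip δ) ≤ f d ∧ f d ≤ f δ)
    (h0 : f (Γ.flip δ) < f δ) (P : Arc Γ δ n p) : ∀ i < n, f (Γ.flip δ) < f (p i) := by
  have hf := h.f_rot
  intro i
  induction i with
  | zero =>
    intro _
    rw [same_eq hf P.start]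
    exact h0
  | succ i ih =>
    intro hin
    have h1 := ih (by omega)
    refine lt_of_le_of_ne (hx _).1 fun h2 => ?_
    have hsp := h.op.spread {e | Γ.rot.SameCycle (p (i + 1)) e}
      (fun d => Equiv.Perm.sameCycle_apply_right) ?_ ?_ (Γ.flip (p i)) (P.step i hin).symm
    · have h3 : f (Γ.flip (Γ.flip (p i))) = f (Γ.flip (p i)) := hsp
      rw [Γ.flip_flip, P.f_next hf (show i < n by omega), vx_lt hin, ← h2] at h3
      exact h1.ne' h3
    · intro d hd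
      constructor
      · rintro rfl
        exact P.inj 0 (i + 1) (by omega) hin (P.start.symm.trans (Equiv.Perm.SameCycle.symm hd))
      · rintro rfl
        exact P.end_ (i + 1) hin (Equiv.Perm.SameCycle.symm hd)
    · intro d hd
      change f d ≤ f (Γ.flip d)
      rw [same_eq hf hd, ← h2]
      exact (hx _).1

end strict

section J

variable {E : Type} {Ω : Type*} [LinearOrder Ω] {Γ : CMap E} {δ : E} {X Y : E → Ω ≃o Ω}
  {a b : Ω ≃o Ω} {k : ℕ} {z₀ : Ω}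

/-- The slope of the edge is at least `1 / ℓ`. -/
def Slope (Γ : CMap E) (X Y : E → Ω ≃o Ω) (d : E) (ℓ : ℕ) : Prop :=
  ∀ z, X (Γ.flip d) z ≤ X d z → X d z ≤ X (Γ.flip d) ((Sys.N Γ Y d ^ ℓ) z)

section basic

variable (S : Sys Γ δ X Y a b k) (h0 : z₀ < a z₀)
include S h0

omit S in
lemma inv_le {z : Ω} (hz : Reg a z₀ z) : a⁻¹ z ≤ z := by
  rw [← a.le_iff_le, RelIso.apply_inv_self]
  exact (reg_lt h0 hz).le

variable [Finite E]

lemma hgt_bd (d : E) (z : Ω) (hz : Reg a z₀ z) :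
    a⁻¹ z ≤ ((X (Γ.flip δ))⁻¹ * X d) z ∧ ((X (Γ.flip δ))⁻¹ * X d) z ≤ a z := by
  have h1 := S.ext (reg_lt h0 hz).le d
  rw [RelIso.mul_apply]
  constructor
  · refine (inv_le h0 hz).trans ?_
    rw [← (X (Γ.flip δ)).le_iff_le, RelIso.apply_inv_self]
    exact h1.1
  · rw [← (X (Γ.flip δ)).le_iff_le, RelIso.apply_inv_self, S.ha]
    exact h1.2.1

lemma fac_bd (d : E) (z : Ω) (hz : Reg a z₀ z) :
    a⁻¹ z ≤ ((Y δ)⁻¹ * Y d) z ∧ ((Y δ)⁻¹ * Y d) z ≤ a z := by
  have h1 := S.ext (reg_lt h0 hz).le d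
  rw [RelIso.mul_apply]
  constructor
  · refine (inv_le h0 hz).trans ?_
    rw [← (Y δ).le_iff_le, RelIso.apply_inv_self]
    exact h1.2.2.1
  · refine le_trans ?_ (S.b_le_a (reg_lt h0 hz).le)
    rw [← (Y δ).le_iff_le, RelIso.apply_inv_self, S.hb]
    exact h1.2.2.2

omit [Finite E] in
lemma b_bd (z : Ω) (hz : Reg a z₀ z) : a⁻¹ z ≤ b z ∧ b z ≤ a z :=
  ⟨(inv_le h0 hz).trans (S.b_ge (reg_lt h0 hz).le), S.b_le_a (reg_lt h0 hz).le⟩

omit S [Finite E] in
lemma a_bd (z : Ω) (hz : Reg a z₀ z) : a⁻¹ z ≤ a z ∧ a z ≤ a z :=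
  ⟨(inv_le h0 hz).trans (reg_lt h0 hz).le, le_rfl⟩

/-- The height of a vertex. -/
def hgt (d : E) : {z // Reg a z₀ z} ≃o {z // Reg a z₀ z} := restr h0 _ (hgt_bd S h0 d)

/-- The label of a face. -/
def fac (d : E) : {z // Reg a z₀ z} ≃o {z // Reg a z₀ z} := restr h0 _ (fac_bd S h0 d)

/-- The positive part of the flow of an edge. -/
def flo (d : E) : {z // Reg a z₀ z} ≃o {z // Reg a z₀ z} :=
  posIso ((fac S h0 (Γ.flip d))⁻¹ * fac S h0 d)

/-- The element of the vertices of the negative edge. -/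
def aJ : {z // Reg a z₀ z} ≃o {z // Reg a z₀ z} := restr h0 _ (a_bd h0)

/-- The element of the faces of the negative edge. -/
def bJ : {z // Reg a z₀ z} ≃o {z // Reg a z₀ z} := restr h0 _ (b_bd S h0)

lemma hgt_eq (d : E) (z : {z // Reg a z₀ z}) : X (Γ.flip δ) (hgt S h0 d z).1 = X d z.1 := by
  change X (Γ.flip δ) (((X (Γ.flip δ))⁻¹ * X d) z.1) = _
  rw [RelIso.mul_apply, RelIso.apply_inv_self]

lemma fac_eq (d : E) (z : {z // Reg a z₀ z}) : Y δ (fac S h0 d z).1 = Y d z.1 := by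
  change Y δ (((Y δ)⁻¹ * Y d) z.1) = _
  rw [RelIso.mul_apply, RelIso.apply_inv_self]

lemma hgt_le (d e : E) (z w : {z // Reg a z₀ z}) :
    hgt S h0 d z ≤ hgt S h0 e w ↔ X d z.1 ≤ X e w.1 := by
  rw [← hgt_eq S h0 d z, ← hgt_eq S h0 e w, (X (Γ.flip δ)).le_iff_le]
  rfl

lemma fac_le (d e : E) (z w : {z // Reg a z₀ z}) :
    fac S h0 d z ≤ fac S h0 e w ↔ Y d z.1 ≤ Y e w.1 := by
  rw [← fac_eq S h0 d z, ← fac_eq S h0 e w, (Y δ).le_iff_le]
  rfl

lemma fac_lt (d e : E) (z w : {z // Reg a z₀ z}) :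
    fac S h0 d z < fac S h0 e w ↔ Y d z.1 < Y e w.1 := by
  rw [← not_le, fac_le, not_le]

lemma flo_eq (d : E) (z : {z // Reg a z₀ z}) :
    fac S h0 (Γ.flip d) (flo S h0 d z) = max (fac S h0 (Γ.flip d) z) (fac S h0 d z) := by
  rw [flo, posIso_apply, (fac S h0 (Γ.flip d)).monotone.map_max, RelIso.mul_apply,
    RelIso.apply_inv_self]

/-- The flow in the order. -/
lemma N_eq (d : E) (z : {z // Reg a z₀ z}) :
    (((fac S h0 (Γ.flip d))⁻¹ * fac S h0 d) z).1 = Sys.N Γ Y d z.1 := by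
  apply (Y (Γ.flip d)).injective
  rw [Sys.Y_N, ← fac_eq S h0 (Γ.flip d), ← fac_eq S h0 d, RelIso.mul_apply,
    RelIso.apply_inv_self]

lemma N_le_flo (d : E) (z : {z // Reg a z₀ z}) : Sys.N Γ Y d z.1 ≤ (flo S h0 d z).1 := by
  rw [← N_eq S h0, flo, posIso_apply]
  exact (le_max_right z (((fac S h0 (Γ.flip d))⁻¹ * fac S h0 d) z) : _)

lemma le_flo (d : E) (z : {z // Reg a z₀ z}) : z ≤ flo S h0 d z := by
  rw [flo, posIso_apply]
  exact le_max_left _ _

lemma Npow_le_flo (d : E) (ℓ : ℕ) (z : {z // Reg a z₀ z}) :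
    (Sys.N Γ Y d ^ ℓ) z.1 ≤ ((flo S h0 d ^ ℓ) z).1 := by
  induction ℓ generalizing z with
  | zero => simp
  | succ ℓ ih =>
    rw [pow_succ, pow_succ, RelIso.mul_apply, RelIso.mul_apply]
    exact ((Sys.N Γ Y d ^ ℓ).monotone (N_le_flo S h0 d z)).trans (ih _)

lemma le_flo_pow (d : E) (ℓ : ℕ) (z : {z // Reg a z₀ z}) : z ≤ (flo S h0 d ^ ℓ) z := by
  induction ℓ with
  | zero => simp
  | succ ℓ ih =>
    rw [pow_succ', RelIso.mul_apply]
    exact ih.trans (le_flo S h0 d _)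

lemma slope_step {d : E} {ℓ : ℕ} (h : Slope Γ X Y d ℓ) (z : {z // Reg a z₀ z}) :
    X d z.1 ≤ X (Γ.flip d) ((flo S h0 d ^ ℓ) z).1 := by
  rcases le_total (X (Γ.flip d) z.1) (X d z.1) with h1 | h1
  · exact (h z.1 h1).trans ((X (Γ.flip d)).monotone (Npow_le_flo S h0 d ℓ z))
  · exact h1.trans ((X (Γ.flip d)).monotone (le_flo_pow S h0 d ℓ z))

omit h0 [Finite E] in
/-- An edge which does not descend. -/
lemma X_of_Y {d : E} (h1 : d ≠ δ) (h2 : d ≠ Γ.flip δ) {z : Ω}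
    (h : Y d z ≤ Y (Γ.flip d) z) : X d z ≤ X (Γ.flip d) z := by
  by_contra hn
  push Not at hn
  have h3 := (S.harm z).pos d h1 h2 hn.le
  have h4 := (S.harm z).str d h1 h2 (le_antisymm h3 h)
  exact hn.ne h4

omit h0 [Finite E] in
/-- An edge with a positive flow descends. -/
lemma X_of_Y' {d : E} (h1 : d ≠ δ) (h2 : d ≠ Γ.flip δ) {z : Ω}
    (h : Y (Γ.flip d) z < Y d z) : X (Γ.flip d) z < X d z := by
  by_contra hn
  push Not at hn
  obtain ⟨h3, h4⟩ := Harm.ne_flip (Γ := Γ) h1 h2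
  have h5 := (S.harm z).pos _ h3 h4
  rw [Γ.flip_flip] at h5
  exact absurd (h5 hn) (not_le.mpr h)

omit h0 [Finite E] in
/-- A descending edge has a positive flow. -/
lemma Y_of_X {d : E} (h1 : d ≠ δ) (h2 : d ≠ Γ.flip δ) {z : Ω}
    (h : X (Γ.flip d) z < X d z) : Y (Γ.flip d) z < Y d z := by
  refine lt_of_le_of_ne ((S.harm z).pos d h1 h2 h.le) fun h3 => ?_
  exact h.ne ((S.harm z).str d h1 h2 h3)

omit [Finite E] in
lemma ends_lt (z : {z // Reg a z₀ z}) : X (Γ.flip δ) z.1 < X δ z.1 := by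
  rw [← S.ha z.1]
  exact (X (Γ.flip δ)).strictMono (reg_lt h0 z.2)

/-- The path on the interval. -/
def toF {n : ℕ} {p : ℕ → E} (P : Arc Γ δ n p) (ℓ : ℕ → ℕ)
    (hℓ : ∀ i < n, 0 < ℓ i ∧ Slope Γ X Y (p i) (ℓ i)) :
    FPth (aJ h0) (bJ S h0) n (fun i => if i - 1 < n then ℓ (i - 1) else 1) where
  h i := hgt S h0 (vx δ Γ n p i)
  F i := flo S h0 (p (i - 1))
  l i := fac S h0 (p (i - 1))
  r i := fac S h0 (Γ.flip (p (i - 1)))
  pos := P.pos
  wpos i := by
    split_ifs with h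
    · exact (hℓ _ h).1
    · exact Nat.one_pos
  top z := by
    apply Subtype.ext
    apply (X (Γ.flip δ)).injective
    rw [hgt_eq, vx_lt P.pos]
    change _ = X (Γ.flip δ) (a z.1)
    rw [S.ha]
    exact same_eq (f := fun d => X d z.1) (S.harm z.1).f_rot P.start
  bot z := by
    apply Subtype.ext
    apply (X (Γ.flip δ)).injective
    rw [hgt_eq, vx_end]
  lo i z := by
    have := (S.ext (reg_lt h0 z.2).le (vx δ Γ n p i)).1
    rw [← hgt_eq S h0 (vx δ Γ n p i) z, (X (Γ.flip δ)).le_iff_le] at this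
    exact this
  hi i z := by
    have := (S.ext (reg_lt h0 z.2).le (vx δ Γ n p i)).2.1
    rw [← hgt_eq S h0 (vx δ Γ n p i) z, ← S.ha, (X (Γ.flip δ)).le_iff_le] at this
    exact this
  one_le i z := by
    constructor
    · have := (S.ext (reg_lt h0 z.2).le (p (i - 1))).2.2.1
      rw [← fac_eq S h0 (p (i - 1)) z, (Y δ).le_iff_le] at this
      exact this
    · have := (S.ext (reg_lt h0 z.2).le (Γ.flip (p (i - 1)))).2.2.1
      rw [← fac_eq S h0 (Γ.flip (p (i - 1))) z, (Y δ).le_iff_le] at this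
      exact this
  le_b i z := by
    constructor
    · have := (S.ext (reg_lt h0 z.2).le (p (i - 1))).2.2.2
      rw [← fac_eq S h0 (p (i - 1)) z, ← S.hb, (Y δ).le_iff_le] at this
      exact this
    · have := (S.ext (reg_lt h0 z.2).le (Γ.flip (p (i - 1)))).2.2.2
      rw [← fac_eq S h0 (Γ.flip (p (i - 1))) z, ← S.hb, (Y δ).le_iff_le] at this
      exact this
  flow i z := flo_eq S h0 _ z
  up i z hi h := by
    rw [Nat.add_sub_cancel, fac_le] at h
    have h1 := X_of_Y S (P.ne i hi) (P.ne_flip hi) h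
    rw [hgt_le, ← P.f_next (f := fun d => X d z.1) (S.harm z.1).f_rot hi, vx_lt hi]
    exact h1
  down i z hi h := by
    rw [Nat.add_sub_cancel, fac_lt] at h
    have h1 := X_of_Y' S (P.ne i hi) (P.ne_flip hi) h
    rw [hgt_le, ← P.f_next (f := fun d => X d z.1) (S.harm z.1).f_rot hi, vx_lt hi]
    exact h1.le
  step i z hi := by
    rw [Nat.add_sub_cancel, if_pos hi, hgt_le, vx_lt hi]
    refine (slope_step S h0 (hℓ i hi).2 z).trans (le_of_eq ?_)
    exact P.f_next (f := fun d => X d ((flo S h0 (p i) ^ ℓ i) z).1)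
      (S.harm ((flo S h0 (p i) ^ ℓ i) z).1).f_rot hi
  fst z := by
    rw [fac_lt]
    refine Y_of_X S (P.ne 0 P.pos) (P.ne_flip P.pos) ?_
    have h1 := below (S.harm z.1) (fun d => ⟨(S.ext (reg_lt h0 z.2).le d).1,
      (S.ext (reg_lt h0 z.2).le d).2.1⟩) (ends_lt S h0 z) P (n - 1) 1 (by
        have := P.pos
        omega) Nat.one_pos
    rw [← P.f_next (f := fun d => X d z.1) (S.harm z.1).f_rot P.pos] at h1
    refine h1.trans_le (le_of_eq ?_)
    exact (same_eq (f := fun d => X d z.1) (S.harm z.1).f_rot P.start).symm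
  lst z := by
    have hn : n - 1 < n := by
      have := P.pos
      omega
    rw [fac_lt]
    refine Y_of_X S (P.ne _ hn) (P.ne_flip hn) ?_
    have h1 := above (S.harm z.1) (fun d => ⟨(S.ext (reg_lt h0 z.2).le d).1,
      (S.ext (reg_lt h0 z.2).le d).2.1⟩) (ends_lt S h0 z) P (n - 1) hn
    refine lt_of_le_of_lt (le_of_eq ?_) h1
    exact (same_eq (f := fun d => X d z.1) (S.harm z.1).f_rot P.last).symm

/-- The rule for two paths: `q` is on the right side of `p`. -/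
theorem toF_left {m n : ℕ} {p q : ℕ → E} (P : Arc Γ δ m p) (Q : Arc Γ δ n q)
    (D : Disj Γ m p n q) {A B : Set E} (hB : Side Γ δ m p B) (hA : Side Γ δ n q A) (hAB : A ⊆ B)
    (u v : ℕ → ℕ) (hu : ∀ i < m, 0 < u i ∧ Slope Γ X Y (p i) (u i))
    (hv : ∀ i < n, 0 < v i ∧ Slope Γ X Y (q i) (v i)) :
    (toF S h0 P u hu).Left (toF S h0 Q v hv) := by
  intro j i t hj hi dj di hg ho
  have hx : ∀ d, X (Γ.flip δ) t.1 ≤ X d t.1 ∧ X d t.1 ≤ X δ t.1 := fun d =>
    ⟨(S.ext (reg_lt h0 t.2).le d).1, (S.ext (reg_lt h0 t.2).le d).2.1⟩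
  have dj' : X (Γ.flip (p j)) t.1 < X (p j) t.1 :=
    X_of_Y' S (P.ne j hj) (P.ne_flip hj) ((fac_lt S h0 _ _ _ _).mp dj)
  have di' : X (Γ.flip (q i)) t.1 < X (q i) t.1 :=
    X_of_Y' S (Q.ne i hi) (Q.ne_flip hi) ((fac_lt S h0 _ _ _ _).mp di)
  change fac S h0 (q i) t ≤ fac S h0 (Γ.flip (p j)) t
  rw [fac_le]
  have mono : ∀ {n : ℕ} {q : ℕ → E} (Q : Arc Γ δ n q) (v : ℕ → ℕ)
      (hv : ∀ i < n, 0 < v i ∧ Slope Γ X Y (q i) (v i)), (toF S h0 Q v hv).Mono t →
      MonoAt Γ (fun d => X d t.1) n q := by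
    intro n q Q v hv hm l hl
    have h1 : hgt S h0 (vx δ Γ n q (l + 1)) t ≤ hgt S h0 (vx δ Γ n q l) t := hm l hl
    rw [hgt_le, ← Q.f_next (f := fun d => X d t.1) (S.harm t.1).f_rot hl, vx_lt hl] at h1
    exact h1
  have main : (MonoAt Γ (fun d => X d t.1) n q ∨ MonoAt Γ (fun d => X d t.1) m p) →
      Y (q i) t.1 ≤ Y (Γ.flip (p j)) t.1 := by
    intro hm
    obtain ⟨o1, o2⟩ := ho
    have o1' : hgt S h0 (vx δ Γ m p (j + 1)) t ≤ hgt S h0 (vx δ Γ n q i) t := o1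
    have o2' : hgt S h0 (vx δ Γ n q (i + 1)) t ≤ hgt S h0 (vx δ Γ m p j) t := o2
    rw [hgt_le, ← P.f_next (f := fun d => X d t.1) (S.harm t.1).f_rot hj, vx_lt hi] at o1'
    rw [hgt_le, ← Q.f_next (f := fun d => X d t.1) (S.harm t.1).f_rot hi, vx_lt hj] at o2'
    exact arc_cut (S.harm t.1) hx Q P D.symm hA hB hAB hi hj di' dj' o2' o1' hm
  rcases hg with hg | hg | ⟨rfl, rfl⟩ | ⟨hj', hi'⟩
  · exact main (Or.inr (mono P u hu hg))
  · exact main (Or.inl (mono Q v hv hg))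
  · exact arc_top (S.harm t.1) hx Q P D.symm hA hB hAB dj'
  · obtain rfl : j = m - 1 := by omega
    obtain rfl : i = n - 1 := by omega
    exact arc_bot (S.harm t.1) hx Q P D.symm hA hB hAB dj'

end basic

end J

end Pool.Agent.Helper31.T3
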