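import Mathlib
import Pool.Agent.Helper42.Th.Path
import Pool.Agent.Helper42.T3.Sph
import Pool.Agent.Helper31.T3.Setup

/-!
From routes in labelled graphs to paths on an interval of a linear order.
-/

set_option autoImplicit false

namespace Pool.Agent.Helper31.T3

open Pool.Agent.Helper42.Th Pool.Agent.Helper42.T3

variable {E : Type} {G : Type*} [Group G] {Γ : CMap E} {L : Lab G Γ} {δ : E}
  {N n M m : ℕ} {p q : ℕ → E} {F F' : E → Prop}

lemma arc_of_route (h : Route L δ N n p F) : Arc Γ δ n p :=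
  ⟨h.pos, h.ne, h.start, h.next, h.stop, h.simple, fun i hi h1 => h.simple' i hi h1.symm⟩

lemma side_of_route (h : Route L δ N n p F) : Side Γ δ n p {d | F d} where
  face := h.face
  mem := h.side.1
  not_mem := h.side.2
  iff e h1 h2 := by
    refine (h.change e h1 h2).trans ?_
    simp only [ne_comm (b := e), ne_comm (b := Γ.flip e)]

lemma disj_of_apart (h : Apart Γ n m p q F F') : Disj Γ n p m q :=
  ⟨fun i j h1 h2 h3 h4 => h.2.1 i j h1 h3 h2 h4, h.1⟩

variable {Ω : Type*} [CompleteLinearOrder Ω] (ρ : G →* (Ω ≃o Ω))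

lemma slope_of_within {d : E} {ℓ : ℕ} (h : L.Within d ℓ) : Slope Γ (lx L ρ) (ly L ρ) d ℓ := by
  intro z hz
  have h1 := within_le L ρ h (up_D (L := L) (ρ := ρ) |>.mpr hz)
  rw [← X_D L ρ d z]
  exact (lx L ρ (Γ.flip d)).monotone h1

end Pool.Agent.Helper31.T3
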