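import Mathlib
import Pool.Agent.Helper31.T3.Face
import Pool.Agent.Helper24.T3.Abs

/-!
The rules for two and for three paths, from the labels of the faces.
-/

set_option autoImplicit false

namespace Pool.Agent.Helper31.T3

open Pool.Agent.Helper24.T3 (Pth Cut2 Cut3 Mid)

variable {J : Type*} [LinearOrder J] {a b : J ≃o J} {k m n : ℕ} {u v w : ℕ → ℕ}

namespace FPth

/-- A path the edges of which have weight one. -/
def toPth (P : FPth a b n w) (hw : ∀ i, w i = 1) : Pth a n where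
  h := P.h
  F := P.F
  top := P.top
  bot := P.bot
  lo i z _ := P.lo i z
  hi i z _ := P.hi i z
  ge := P.ge
  fst z := dn_iff.mp (P.fst z)
  lst z := dn_iff.mp (P.lst z)
  step i z hi := by
    have := P.step i z hi
    rwa [hw, pow_one] at this
  str i z hi h := by
    by_contra hn
    have h1 : ¬ P.Dn (i + 1) z := fun h => hn (dn_iff.mp h)
    exact absurd h (not_lt.mpr (P.up i z hi (not_lt.mp h1)))

variable {P : FPth a b m u} {Q : FPth a b n v} {R : FPth a b k w}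

theorem toCut2 (h : P.Left Q) (hu : ∀ i, u i = 1) (hv : ∀ i, v i = 1) :
    Cut2 b (P.toPth hu) (Q.toPth hv) := by
  intro j i s hj hi hg ho
  refine cut2 h j i s hj hi ?_ ho
  rcases hg with (hg | hg) | hg | hg
  · exact Or.inl hg
  · exact Or.inr (Or.inl hg)
  · exact Or.inr (Or.inr (Or.inl hg))
  · exact Or.inr (Or.inr (Or.inr hg))

theorem toCut3 (h1 : R.Left P) (h2 : P.Left Q) (h3 : R.Left Q) (hw : ∀ i, w i = 1)
    (hu : ∀ i, u i = 1) (hv : ∀ i, v i = 1) :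
    Cut3 b (R.toPth hw) (P.toPth hu) (Q.toPth hv) := by
  intro c j i s hc hj hi hg o1 o2
  have key : ∀ {A B C D : Prop}, A ∨ B → A ∨ B ∨ C ∨ D := fun h =>
    h.elim Or.inl fun h => Or.inr (Or.inl h)
  rcases hg with ⟨g1, g2, g3⟩ | ⟨g1, g2, g3⟩ | ⟨g1, g2, g3⟩
  · exact cut3 h1 h2 h3 c j i s hc hj hi (key g1) o1 (key g2) o2 (key g3)
  · exact cut3 h1 h2 h3 c j i s hc hj hi (Or.inr (Or.inr (Or.inl ⟨g1, g2⟩))) o1
      (Or.inr (Or.inr (Or.inl ⟨g2, g3⟩))) o2 (Or.inr (Or.inr (Or.inl ⟨g1, g3⟩)))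
  · exact cut3 h1 h2 h3 c j i s hc hj hi (Or.inr (Or.inr (Or.inr ⟨g1, g2⟩))) o1
      (Or.inr (Or.inr (Or.inr ⟨g2, g3⟩))) o2 (Or.inr (Or.inr (Or.inr ⟨g1, g3⟩)))

/-- A path of length two between two others. -/
theorem toMid {R : FPth a b 2 w} (h1 : P.Left R) (h2 : R.Left Q) (hw : ∀ i, w i = 1)
    (hu : ∀ i, u i = 1) (hv : ∀ i, v i = 1) :
    Mid b (P.toPth hu) (R.toPth hw) (Q.toPth hv) ((R.l 1)⁻¹ * b) ((R.l 2)⁻¹ * b) (R.r 1)
      (R.r 2) := by
  have hm : ∀ t, R.Mono t := (R.toPth hw).mono2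
  have hA : ∀ i s, R.l i (((R.l i)⁻¹ * b) s) = b s := fun i s => by
    rw [RelIso.mul_apply, RelIso.apply_inv_self]
  have hle : ∀ i s, s ≤ ((R.l i)⁻¹ * b) s := fun i s => by
    rw [← (R.l i).le_iff_le, hA]
    exact (R.le_b i s).1
  -- the left side
  have left : ∀ (c j : ℕ) (s : J), c < 2 → j < m → R.Dn (c + 1) (((R.l (c + 1))⁻¹ * b) s) →
      P.Ov R j c (((R.l (c + 1))⁻¹ * b) s) → P.F (j + 1) s ≤ ((R.l (c + 1))⁻¹ * b) s := by
    intro c j s hc hj hd ho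
    by_cases h3 : P.Dn (j + 1) (((R.l (c + 1))⁻¹ * b) s)
    · have h4 := h1 j c _ hj hc h3 hd (Or.inr (Or.inl (hm _))) ho
      rw [hA] at h4
      rw [← (P.r (j + 1)).le_iff_le]
      exact (P.r_F_le _ _).trans h4
    · have h4 := (P.F (j + 1)).monotone (hle (c + 1) s)
      rwa [not_dn h3] at h4
  -- the right side
  have right : ∀ (c i : ℕ) (t : J), c < 2 → i < n → R.Dn (c + 1) t → R.Ov Q c i t →
      Q.F (i + 1) t ≤ R.r (c + 1) t := by
    intro c i t hc hi hd ho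
    by_cases h3 : Q.Dn (i + 1) t
    · have h4 := h2 c i _ hc hi hd h3 (Or.inl (hm _)) ho
      refine ((Q.one_le (i + 1) _).2.trans ?_).trans h4
      rw [flow_dn h3]
    · rw [not_dn h3]
      exact (R.one_le _ _).2
  refine ⟨fun s => ?_, fun s => ?_, fun j s hj h => ?_, fun j s hj h => ?_, fun i t hi h => ?_,
    fun i t hi h => ?_⟩
  · change R.r 1 (R.F 1 _) ≤ _
    rw [flow_dn (R.fst _), hA]
  · change R.r 2 (R.F 2 _) ≤ _
    rw [flow_dn (R.lst _), hA]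
  · exact left 0 j s (by norm_num) hj (R.fst _) ⟨by rw [R.top]; exact P.hi _ _, h⟩
  · refine left 1 j s (by norm_num) hj (R.lst _) ⟨h, ?_⟩
    change R.h 2 _ ≤ _
    rw [R.bot]
    exact P.lo _ _
  · exact right 0 i t (by norm_num) hi (R.fst _) ⟨h, by rw [R.top]; exact Q.hi _ _⟩
  · refine right 1 i t (by norm_num) hi (R.lst _) ⟨?_, h⟩
    change R.h 2 _ ≤ _
    rw [R.bot]
    exact Q.lo _ _

end FPth

end Pool.Agent.Helper31.T3
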