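import Mathlib
import Pool.Agent.Helper31.T3.Face

/-!
The opposite order: paths from the bottom to the top.
-/

set_option autoImplicit false

namespace Pool.Agent.Helper31.T3

variable {J : Type*} [LinearOrder J]

/-- An automorphism of the opposite order. -/
def op (φ : J ≃o J) : Jᵒᵈ ≃o Jᵒᵈ := φ.dual

lemma op_apply (φ : J ≃o J) (z : Jᵒᵈ) : op φ z = OrderDual.toDual (φ (OrderDual.ofDual z)) := rfl

lemma op_le (φ ψ : J ≃o J) (z w : Jᵒᵈ) :
    op φ z ≤ op ψ w ↔ ψ (OrderDual.ofDual w) ≤ φ (OrderDual.ofDual z) := Iff.rfl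

lemma op_lt (φ ψ : J ≃o J) (z w : Jᵒᵈ) :
    op φ z < op ψ w ↔ ψ (OrderDual.ofDual w) < φ (OrderDual.ofDual z) := Iff.rfl

lemma op_pow (φ : J ≃o J) (k : ℕ) (z : Jᵒᵈ) :
    (op φ ^ k) z = OrderDual.toDual ((φ ^ k) (OrderDual.ofDual z)) := by
  induction k generalizing z with
  | zero => simp
  | succ k ih =>
    rw [pow_succ', pow_succ', RelIso.mul_apply, RelIso.mul_apply, ih]
    rfl

variable {a b : J ≃o J} {m n : ℕ} {u w : ℕ → ℕ}

namespace FPth

/-- The reversed path. -/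
def rev (P : FPth a b n w) : FPth (op a⁻¹) (op b⁻¹) n (fun i => w (n + 1 - i)) where
  h i := op (a⁻¹ * P.h (n - i))
  F i := op (P.F (n + 1 - i))⁻¹
  l i := op (b⁻¹ * P.r (n + 1 - i))
  r i := op (b⁻¹ * P.l (n + 1 - i))
  pos := P.pos
  wpos i := P.wpos _
  top z := by
    rw [op_apply, op_apply, Nat.sub_zero, RelIso.mul_apply, P.bot]
  bot z := by
    rw [op_apply, Nat.sub_self, RelIso.mul_apply, P.top, RelIso.inv_apply_self]
    rfl
  lo i z := by
    change a⁻¹ (P.h (n - i) (OrderDual.ofDual z)) ≤ OrderDual.ofDual z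
    rw [← a.le_iff_le, RelIso.apply_inv_self]
    exact P.hi _ _
  hi i z := by
    change a⁻¹ (OrderDual.ofDual z) ≤ a⁻¹ (P.h (n - i) (OrderDual.ofDual z))
    exact a⁻¹.monotone (P.lo _ _)
  one_le i z := by
    constructor
    · change b⁻¹ (P.r (n + 1 - i) (OrderDual.ofDual z)) ≤ OrderDual.ofDual z
      rw [← b.le_iff_le, RelIso.apply_inv_self]
      exact (P.le_b _ _).2
    · change b⁻¹ (P.l (n + 1 - i) (OrderDual.ofDual z)) ≤ OrderDual.ofDual z
      rw [← b.le_iff_le, RelIso.apply_inv_self]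
      exact (P.le_b _ _).1
  le_b i z := by
    constructor
    · change b⁻¹ (OrderDual.ofDual z) ≤ b⁻¹ (P.r (n + 1 - i) (OrderDual.ofDual z))
      exact b⁻¹.monotone (P.one_le _ _).2
    · change b⁻¹ (OrderDual.ofDual z) ≤ b⁻¹ (P.l (n + 1 - i) (OrderDual.ofDual z))
      exact b⁻¹.monotone (P.one_le _ _).1
  flow i z := by
    change b⁻¹ (P.l (n + 1 - i) ((P.F (n + 1 - i))⁻¹ (OrderDual.ofDual z))) =
      min (b⁻¹ (P.l (n + 1 - i) (OrderDual.ofDual z))) (b⁻¹ (P.r (n + 1 - i) (OrderDual.ofDual z)))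
    rw [← b⁻¹.monotone.map_min]
    congr 1
    obtain ⟨y, hy⟩ := (P.F (n + 1 - i)).surjective (OrderDual.ofDual z)
    rw [← hy, RelIso.inv_apply_self]
    by_cases hd : P.Dn (n + 1 - i) y
    · rw [flow_dn hd, min_eq_right]
      exact (P.l _).monotone (P.ge _ _)
    · rw [not_dn hd, min_eq_left]
      exact not_lt.mp hd
  up i z hi h := by
    have h1 : P.l (n + 1 - (i + 1)) (OrderDual.ofDual z) ≤
        P.r (n + 1 - (i + 1)) (OrderDual.ofDual z) := b⁻¹.le_iff_le.mp h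
    rw [show n + 1 - (i + 1) = n - (i + 1) + 1 by omega] at h1
    have h2 := P.up (n - (i + 1)) _ (by omega) h1
    rw [show n - (i + 1) + 1 = n - i by omega] at h2
    exact a⁻¹.monotone h2
  down i z hi h := by
    have h1 : P.r (n + 1 - (i + 1)) (OrderDual.ofDual z) <
        P.l (n + 1 - (i + 1)) (OrderDual.ofDual z) := b⁻¹.lt_iff_lt.mp h
    rw [show n + 1 - (i + 1) = n - (i + 1) + 1 by omega] at h1
    have h2 := P.down (n - (i + 1)) _ (by omega) h1
    rw [show n - (i + 1) + 1 = n - i by omega] at h2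
    exact a⁻¹.monotone h2
  step i z hi := by
    rw [op_pow]
    change a⁻¹ (P.h (n - (i + 1)) (((P.F (n + 1 - (i + 1)))⁻¹ ^ w (n + 1 - (i + 1)))
      (OrderDual.ofDual z))) ≤ a⁻¹ (P.h (n - i) (OrderDual.ofDual z))
    apply a⁻¹.monotone
    rw [show n + 1 - (i + 1) = n - (i + 1) + 1 by omega]
    refine (P.step (n - (i + 1)) _ (by omega)).trans ?_
    rw [inv_pow, RelIso.apply_inv_self, show n - (i + 1) + 1 = n - i by omega]
  fst z := by
    change b⁻¹ (P.r (n + 1 - 1) (OrderDual.ofDual z)) < b⁻¹ (P.l (n + 1 - 1) (OrderDual.ofDual z))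
    rw [Nat.add_sub_cancel]
    exact b⁻¹.strictMono (P.lst _)
  lst z := by
    change b⁻¹ (P.r (n + 1 - n) (OrderDual.ofDual z)) < b⁻¹ (P.l (n + 1 - n) (OrderDual.ofDual z))
    rw [Nat.add_sub_cancel_left]
    exact b⁻¹.strictMono (P.fst _)

lemma rev_mono {P : FPth a b n w} {t : Jᵒᵈ} (h : P.rev.Mono t) : P.Mono (OrderDual.ofDual t) := by
  intro i hi
  have h1 := h (n - (i + 1)) (by omega)
  have h2 : a⁻¹ (P.h (n - (n - (i + 1))) (OrderDual.ofDual t)) ≤
    a⁻¹ (P.h (n - (n - (i + 1) + 1)) (OrderDual.ofDual t)) := h1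
  rw [show n - (n - (i + 1)) = i + 1 by omega, show n - (n - (i + 1) + 1) = i by omega] at h2
  exact a⁻¹.le_iff_le.mp h2

/-- The order of the paths is reversed. -/
theorem rev_left {P : FPth a b m u} {Q : FPth a b n w} (h : P.Left Q) : Q.rev.Left P.rev := by
  intro j i t hj hi dj di hg ho
  have dj' : Q.Dn (n - (j + 1) + 1) (OrderDual.ofDual t) := by
    have h1 : Q.r (n + 1 - (j + 1)) (OrderDual.ofDual t) <
        Q.l (n + 1 - (j + 1)) (OrderDual.ofDual t) := b⁻¹.lt_iff_lt.mp dj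
    rwa [show n + 1 - (j + 1) = n - (j + 1) + 1 by omega] at h1
  have di' : P.Dn (m - (i + 1) + 1) (OrderDual.ofDual t) := by
    have h1 : P.r (m + 1 - (i + 1)) (OrderDual.ofDual t) <
        P.l (m + 1 - (i + 1)) (OrderDual.ofDual t) := b⁻¹.lt_iff_lt.mp di
    rwa [show m + 1 - (i + 1) = m - (i + 1) + 1 by omega] at h1
  have key := h (m - (i + 1)) (n - (j + 1)) (OrderDual.ofDual t) (by omega) (by omega) di' dj' ?_
    ?_
  · change b⁻¹ (Q.l (n + 1 - (j + 1)) (OrderDual.ofDual t)) ≤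
      b⁻¹ (P.r (m + 1 - (i + 1)) (OrderDual.ofDual t))
    rw [show n + 1 - (j + 1) = n - (j + 1) + 1 by omega,
      show m + 1 - (i + 1) = m - (i + 1) + 1 by omega]
    exact b⁻¹.monotone key
  · rcases hg with hg | hg | hg | hg
    · exact Or.inr (Or.inl (rev_mono hg))
    · exact Or.inl (rev_mono hg)
    · exact Or.inr (Or.inr (Or.inr (by omega)))
    · exact Or.inr (Or.inr (Or.inl (by omega)))
  · obtain ⟨h1, h2⟩ := ho
    have h1' : P.h (m - i) (OrderDual.ofDual t) ≤ Q.h (n - (j + 1)) (OrderDual.ofDual t) :=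
      a⁻¹.le_iff_le.mp h1
    have h2' : Q.h (n - j) (OrderDual.ofDual t) ≤ P.h (m - (i + 1)) (OrderDual.ofDual t) :=
      a⁻¹.le_iff_le.mp h2
    rw [show m - i = m - (i + 1) + 1 by omega] at h1'
    rw [show n - j = n - (j + 1) + 1 by omega] at h2'
    exact ⟨h1', h2'⟩

/-- The bound of the slope of the negative edge. -/
lemma rev_pow {k : ℕ} (h : ∀ z, (b ^ k) z ≤ a z) (z : Jᵒᵈ) : (op b⁻¹ ^ k) z ≤ op a⁻¹ z := by
  rw [op_pow]
  change a⁻¹ (OrderDual.ofDual z) ≤ (b⁻¹ ^ k) (OrderDual.ofDual z)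
  have h1 := h (a⁻¹ (OrderDual.ofDual z))
  rw [RelIso.apply_inv_self] at h1
  rw [inv_pow, ← (b ^ k).le_iff_le, RelIso.apply_inv_self]
  exact h1

end FPth

end Pool.Agent.Helper31.T3
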