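import Mathlib
import Pool.Agent.Helper31.T3.Rev
import Pool.Agent.Helper31.T3.Bridge
import Pool.Agent.Helper24.T3.P35
import Pool.Agent.Helper24.T3.P325
import Pool.Agent.Helper1.T3.B253

/-!
Three paths of the lengths two, three and five, in any order.
-/

set_option autoImplicit false

namespace Pool.Agent.Helper31.T3

open Pool.Agent.Helper24.T3 (three235 three325)
open Pool.Agent.Helper1.T3 (three253)

variable {J : Type*} [LinearOrder J] {a b : J ≃o J}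

/-- The orders in which the path of length two is left of the path of length five. -/
theorem three_aux (hk : ∀ z, b z ≤ a z) (R : FPth a b 2 (fun _ => 1)) (P : FPth a b 3 (fun _ => 1))
    (Q : FPth a b 5 (fun _ => 1)) (z₀ : J)
    (h : (R.Left P ∧ P.Left Q ∧ R.Left Q) ∨ (P.Left R ∧ R.Left Q) ∨
      (R.Left Q ∧ Q.Left P ∧ R.Left P)) : False := by
  rcases h with ⟨h1, h2, h3⟩ | ⟨h1, h2⟩ | ⟨h1, h2, h3⟩
  · exact three235 b hk _ _ _
      (FPth.toCut3 h1 h2 h3 (fun _ => rfl) (fun _ => rfl) (fun _ => rfl)) z₀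
  · exact three325 b hk _ _ _ _ _ _ _
      (FPth.toMid h1 h2 (fun _ => rfl) (fun _ => rfl) (fun _ => rfl)) z₀
  · exact three253 hk R Q P h1 h2 h3 z₀

lemma rev_le (hk : ∀ z, b z ≤ a z) (z : Jᵒᵈ) : op b⁻¹ z ≤ op a⁻¹ z := by
  have := FPth.rev_pow (k := 1) (a := a) (b := b) (by simpa using hk) z
  simpa using this

/-- Three paths, one of which is left of the others and one of which is right of the others. -/
theorem three (hk : ∀ z, b z ≤ a z) (R : FPth a b 2 (fun _ => 1)) (P : FPth a b 3 (fun _ => 1))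
    (Q : FPth a b 5 (fun _ => 1)) (z₀ : J)
    (h : (R.Left P ∧ P.Left Q ∧ R.Left Q) ∨ (P.Left R ∧ R.Left Q ∧ P.Left Q) ∨
      (R.Left Q ∧ Q.Left P ∧ R.Left P) ∨ (Q.Left P ∧ P.Left R ∧ Q.Left R) ∨
      (Q.Left R ∧ R.Left P ∧ Q.Left P) ∨ (P.Left Q ∧ Q.Left R ∧ P.Left R)) : False := by
  rcases h with h | h | h | ⟨h1, h2, h3⟩ | ⟨h1, h2, h3⟩ | ⟨h1, h2, h3⟩
  · exact three_aux hk R P Q z₀ (Or.inl h)
  · exact three_aux hk R P Q z₀ (Or.inr (Or.inl ⟨h.1, h.2.1⟩))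
  · exact three_aux hk R P Q z₀ (Or.inr (Or.inr h))
  · exact three_aux (J := Jᵒᵈ) (a := op a⁻¹) (b := op b⁻¹) (rev_le hk) R.rev P.rev Q.rev (OrderDual.toDual z₀)
      (Or.inl ⟨FPth.rev_left h2, FPth.rev_left h1, FPth.rev_left h3⟩)
  · exact three_aux (J := Jᵒᵈ) (a := op a⁻¹) (b := op b⁻¹) (rev_le hk) R.rev P.rev Q.rev (OrderDual.toDual z₀)
      (Or.inr (Or.inl ⟨FPth.rev_left h2, FPth.rev_left h1⟩))
  · exact three_aux (J := Jᵒᵈ) (a := op a⁻¹) (b := op b⁻¹) (rev_le hk) R.rev P.rev Q.rev (OrderDual.toDual z₀)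
      (Or.inr (Or.inr ⟨FPth.rev_left h2, FPth.rev_left h1, FPth.rev_left h3⟩))

end Pool.Agent.Helper31.T3
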