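import Mathlib
import Pool.Agent.Helper42.T3.Sub
import Pool.Agent.Helper42.T3.Gen
import Pool.Agent.Helper31.T3.Route
import Pool.Agent.Helper31.T3.Three

/-!
Routes in labelled graphs: there is no interval on which the negative edge moves points up.
-/

set_option autoImplicit false

namespace Pool.Agent.Helper31.T3

open Pool.Agent.Helper42.Th Pool.Agent.Helper42.T3

section two

variable {J : Type*} [LinearOrder J] {a b : J ≃o J}

theorem two_aux {c : ℕ} (hk : ∀ z, (b ^ (c + 2)) z ≤ a z) (hc : ∀ z, a (b z) = b (a z))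
    (P : FPth a b (c + 3) (fun _ => 1)) (Q : FPth a b (2 * c + 5) (fun _ => 1)) (h : P.Left Q)
    (z₀ : J) : False := by
  have T : Two c (P.toPth fun _ => rfl) (Q.toPth fun _ => rfl) b :=
    ⟨hk, hc, FPth.toCut2 h (fun _ => rfl) (fun _ => rfl), fun j s _ _ => P.F_le j s,
      fun i s _ _ => Q.F_le i s, fun s => FPth.dn_iff.mp (P.fst s),
      fun s => FPth.dn_iff.mp (P.lst s), fun s => FPth.dn_iff.mp (Q.fst s),
      fun s => FPth.dn_iff.mp (Q.lst s)⟩
  exact T.false z₀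

/-- Two paths of the lengths `k + 1` and `2 k + 1`, in any order; `k = c + 2`. -/
theorem two {c : ℕ} (hk : ∀ z, (b ^ (c + 2)) z ≤ a z) (hc : ∀ z, a (b z) = b (a z))
    (P : FPth a b (c + 3) (fun _ => 1)) (Q : FPth a b (2 * c + 5) (fun _ => 1))
    (h : P.Left Q ∨ Q.Left P) (z₀ : J) : False := by
  rcases h with h | h
  · exact two_aux hk hc P Q h z₀
  · refine two_aux (J := Jᵒᵈ) (a := op a⁻¹) (b := op b⁻¹) (FPth.rev_pow hk) ?_ P.rev Q.rev
      (FPth.rev_left h) (OrderDual.toDual z₀)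
    intro z
    change a⁻¹ (b⁻¹ (OrderDual.ofDual z)) = b⁻¹ (a⁻¹ (OrderDual.ofDual z))
    apply b.injective
    apply a.injective
    rw [RelIso.apply_inv_self, hc, RelIso.apply_inv_self, RelIso.apply_inv_self,
      RelIso.apply_inv_self]

end two

variable {E : Type} {G : Type*} [Group G] {Γ : CMap E} {L : Lab G Γ} {δ : E}
  {N n M m : ℕ} {p q : ℕ → E} {F F' : E → Prop} {Ω : Type*} [CompleteLinearOrder Ω]
  {ρ : G →* (Ω ≃o Ω)} {a b : Ω ≃o Ω} {k : ℕ} {z₀ : Ω}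

lemma bJ_pow (S : Sys Γ δ (lx L ρ) (ly L ρ) a b k) (h0 : z₀ < a z₀) (n : ℕ)
    (z : {z // Reg a z₀ z}) : ((bJ S h0 ^ n) z).1 = (b ^ n) z.1 := by
  induction n generalizing z with
  | zero => rfl
  | succ n ih =>
    rw [pow_succ, pow_succ, RelIso.mul_apply, RelIso.mul_apply, ih]
    rfl

variable [Finite E]

/-- The path of a route. -/
noncomputable def rt (S : Sys Γ δ (lx L ρ) (ly L ρ) a b k) (h0 : z₀ < a z₀)
    (h : Route L δ N n p F) (M : ℕ) (hM : N ≤ M) : FPth (aJ h0) (bJ S h0) M (fun _ => 1) :=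
  unit (toF S h0 (arc_of_route h) h.length.choose fun i hi =>
    ⟨(h.length.choose_spec.1 i hi).1, slope_of_within ρ (h.length.choose_spec.1 i hi).2⟩) M (by
      refine le_trans ?_ (h.length.choose_spec.2.trans hM)
      refine le_of_eq (Finset.sum_congr rfl fun i hi => ?_)
      change (if i + 1 - 1 < n then h.length.choose (i + 1 - 1) else 1) = h.length.choose i
      rw [Nat.add_sub_cancel, if_pos (Finset.mem_range.mp hi)])

lemma rt_left (S : Sys Γ δ (lx L ρ) (ly L ρ) a b k) (h0 : z₀ < a z₀)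
    (hp : Route L δ N n p F) (hq : Route L δ M m q F') (D : Disj Γ n p m q)
    (hs : ∀ d, F' d → F d) (N' M' : ℕ) (hN : N ≤ N') (hM : M ≤ M') :
    (rt S h0 hp N' hN).Left (rt S h0 hq M' hM) :=
  left_unit (toF_left S h0 (arc_of_route hp) (arc_of_route hq) D (side_of_route hp)
    (side_of_route hq) hs _ _ _ _) _ _ _ _

/-- The negative edge does not move points up. -/
theorem not_up (S : Sys Γ δ (lx L ρ) (ly L ρ) a b k) (h : Spherical L δ k) : ¬ z₀ < a z₀ := by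
  intro h0
  have z : {z // Reg a z₀ z} := ⟨z₀, reg_self a z₀⟩
  cases h with
  | one l n m o p q F F' F'' ho hp hq hop hoq hpq =>
    have hk : ∀ z, bJ S h0 z ≤ aJ h0 z := fun z => S.b_le_a (reg_lt h0 z.2).le
    have D1 := disj_of_apart hop
    have D2 := disj_of_apart hoq
    have D3 := disj_of_apart hpq
    refine three hk (rt S h0 ho 2 le_rfl) (rt S h0 hp 3 le_rfl) (rt S h0 hq 5 le_rfl) z ?_
    rcases hop.2.2 with s1 | s1 <;> rcases hoq.2.2 with s2 | s2 <;> rcases hpq.2.2 with s3 | s3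
    · exact Or.inr (Or.inr (Or.inr (Or.inl ⟨rt_left S h0 hq hp D3.symm s3 _ _ _ _,
        rt_left S h0 hp ho D1.symm s1 _ _ _ _, rt_left S h0 hq ho D2.symm s2 _ _ _ _⟩)))
    · exact Or.inr (Or.inr (Or.inr (Or.inr (Or.inr ⟨rt_left S h0 hp hq D3 s3 _ _ _ _,
        rt_left S h0 hq ho D2.symm s2 _ _ _ _, rt_left S h0 hp ho D1.symm s1 _ _ _ _⟩))))
    · exact Or.inr (Or.inl ⟨rt_left S h0 hp ho D1.symm s1 _ _ _ _,
        rt_left S h0 ho hq D2 s2 _ _ _ _, rt_left S h0 hp hq D3 (fun d h => s1 d (s2 d h)) _ _ _ _⟩)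
    · exact Or.inr (Or.inl ⟨rt_left S h0 hp ho D1.symm s1 _ _ _ _,
        rt_left S h0 ho hq D2 s2 _ _ _ _, rt_left S h0 hp hq D3 s3 _ _ _ _⟩)
    · exact Or.inr (Or.inr (Or.inr (Or.inr (Or.inl ⟨rt_left S h0 hq ho D2.symm s2 _ _ _ _,
        rt_left S h0 ho hp D1 s1 _ _ _ _, rt_left S h0 hq hp D3.symm s3 _ _ _ _⟩))))
    · exact Or.inr (Or.inr (Or.inr (Or.inr (Or.inl ⟨rt_left S h0 hq ho D2.symm s2 _ _ _ _,
        rt_left S h0 ho hp D1 s1 _ _ _ _,
        rt_left S h0 hq hp D3.symm (fun d h => s2 d (s1 d h)) _ _ _ _⟩))))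
    · exact Or.inr (Or.inr (Or.inl ⟨rt_left S h0 ho hq D2 s2 _ _ _ _,
        rt_left S h0 hq hp D3.symm s3 _ _ _ _, rt_left S h0 ho hp D1 s1 _ _ _ _⟩))
    · exact Or.inl ⟨rt_left S h0 ho hp D1 s1 _ _ _ _, rt_left S h0 hp hq D3 s3 _ _ _ _,
        rt_left S h0 ho hq D2 s2 _ _ _ _⟩
  | two _ n m p q F F' hk hp hq hpq =>
    obtain ⟨c, rfl⟩ : ∃ c, k = c + 2 := ⟨k - 2, by omega⟩
    have D := disj_of_apart hpq
    refine two (c := c) (a := aJ h0) (b := bJ S h0) (fun z => ?_) (fun z => ?_)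
      (rt S h0 hp (c + 3) (by omega)) (rt S h0 hq (2 * c + 5) (by omega)) ?_ z
    · change ((bJ S h0 ^ (c + 2)) z).1 ≤ a z.1
      rw [bJ_pow]
      exact S.up _ (S.b_ge (reg_lt h0 z.2).le)
    · exact Subtype.ext (S.comm z.1)
    · rcases hpq.2.2 with s | s
      · exact Or.inr (rt_left S h0 hq hp D.symm s _ _ _ _)
      · exact Or.inl (rt_left S h0 hp hq D s _ _ _ _)

end Pool.Agent.Helper31.T3
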